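import Pool.Agent.V11111.NH.Main
import Pool.Agent.V11111.NH.Renorm

/-!
MP_14d743_an, Q1: a bounded operator on a reflexive complex Banach space which is not power
bounded and has no eigenvalues is weakly numerically hypercyclic.
-/

set_option autoImplicit false

namespace Pool.Agent.Results.MP_14d743_an.DenseNumericalOrbits

open Pool.Agent.V11111.NH

universe u

/-- Some numerical orbit `{f (T^n x)}` of `T` is dense in the complex plane, and `T` is similar to
a numerically hypercyclic operator on a Banach space. -/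
theorem result {X : Type u} [NormedAddCommGroup X] [NormedSpace ℂ X] [CompleteSpace X]
    (hrefl : Function.Surjective (NormedSpace.inclusionInDoubleDual ℂ X))
    (T : X →L[ℂ] X) (hpb : ¬ ∃ C : ℝ, ∀ n : ℕ, 1 ≤ n → ‖T ^ n‖ ≤ C)
    (hev : ∀ (lam : ℂ) (x : X), T x = lam • x → x = 0) :
    (∃ (x : X) (f : StrongDual ℂ X), Dense (Set.range fun n : ℕ => f ((T ^ n) x))) ∧
    ∃ (Y : Type u) (_ : NormedAddCommGroup Y) (_ : NormedSpace ℂ Y) (_ : CompleteSpace Y)
      (J : X ≃L[ℂ] Y) (S : Y →L[ℂ] Y), (∀ v, J.symm (S (J v)) = T v) ∧ NumHyp S := by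
  obtain ⟨x, f, hd⟩ := main hrefl T (fun ⟨C, hC⟩ => hpb ⟨C, fun n _ => hC n⟩)
    (fun x lam h => hev lam x h)
  refine ⟨⟨x, f, hd⟩, ?_⟩
  obtain ⟨x', f', hx', hd'⟩ := renorm T x f hd
  obtain ⟨J, S, hJ, hS⟩ := similar T x' f' hx' hd'
  have hc : IsClosed (f'.ker : Set X) := f'.isClosed_ker
  have : CompleteSpace f'.ker := hc.completeSpace_coe
  exact ⟨ℂ × f'.ker, inferInstance, inferInstance, inferInstance, J, S, hJ, hS⟩

end Pool.Agent.Results.MP_14d743_an.DenseNumericalOrbits
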